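import Pool.Agent.H98.RFT.Targets3
import Pool.Agent.H98.RFT.Basic

/-!
# Row MON1 of the board rft (helper98, MP_057a7e_pr)

The averaged influence in rectangles is decreasing.
-/

set_option autoImplicit false

open MeasureTheory ProbabilityTheory

namespace Pool.Agent.H1.RFT

open Pool.Agent.H98.RFC Pool.Agent.H98.RFZ Pool.Agent.H98.RFT

instance gam_prob : IsProbabilityMeasure gam := by
  unfold gam
  infer_instance

theorem scale_cont (ε : ℝ) : Continuous (fun η : Site → ℝ => fun x => ε * η x) := by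
  fun_prop

theorem inf1_meas (hCNT : D_CNT) (R : ℕ) (J : Site → ℝ) {T : ℝ} (hT : 0 < T) (ε : ℝ)
    (W : Finset Site) (x : Site) :
    Measurable (fun η : Site → ℝ => inf1 R J (fun x => ε * η x) T W x) :=
  (((hCNT R J T hT W).2.2 x).comp (scale_cont ε)).measurable

theorem inf1_int (hINF : D_INF) (hCNT : D_CNT) {R : ℕ} {J : Site → ℝ} (hJ : IsCoupling R J)
    {T : ℝ} (hT : 0 < T) (ε : ℝ) {W : Finset Site} {x : Site} (hx : x ∈ W) :
    Integrable (fun η : Site → ℝ => inf1 R J (fun x => ε * η x) T W x) gam := by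
  refine Integrable.of_bound (inf1_meas hCNT R J hT ε W x).aestronglyMeasurable 1
    (Filter.Eventually.of_forall fun η => ?_)
  have h := (hINF R J hJ (fun x => ε * η x) T hT).1 W x hx
  rw [Real.norm_eq_abs, abs_of_nonneg h.2.1]
  exact h.2.2

theorem zero_mem (hRCT : P_RCT) {p : Site} {K w : ℝ} (hp : p ≠ 0) (hK : 1 ≤ K) (hw : 0 ≤ w) :
    (0 : Site) ∈ rect p K w := by
  obtain ⟨hmem, -⟩ := hRCT p K w hp hK hw
  rw [hmem]
  have h1 : fdet p 0 = 0 := by
    unfold fdet
    simp
  have h2 : gdot p 0 = 0 := by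
    unfold gdot
    simp
  have h3 : 0 ≤ nrm p := Real.sqrt_nonneg _
  rw [h1, h2]
  simp only [Int.cast_zero, abs_zero]
  constructor
  · positivity
  · have : 0 ≤ K := by linarith
    positivity

theorem pf_MON1 (hINF : D_INF) (hCNT : D_CNT) (hRCT : P_RCT) : P_MONT := by
  intro R J hJ T ε hT p K w hp hK hw
  obtain ⟨hmem, hmono, hbox, -⟩ := hRCT p K w hp hK hw
  have h0 : (0 : Site) ∈ rect p K w := zero_mem hRCT hp hK hw
  have key : ∀ Λ : Finset Site, rect p K w ⊆ Λ →
      ∫ η, inf1 R J (fun x => ε * η x) T Λ 0 ∂gam ≤ mKT R J T ε p K w := by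
    intro Λ hΛ
    unfold mKT
    refine integral_mono (inf1_int hINF hCNT hJ hT ε (hΛ h0)) (inf1_int hINF hCNT hJ hT ε h0) ?_
    intro η
    exact ((hINF R J hJ (fun x => ε * η x) T hT).2.1 _ Λ hΛ 0 h0).2
  refine ⟨?_, ?_, ?_, ?_⟩
  · unfold mKT
    exact integral_nonneg fun η => ((hINF R J hJ (fun x => ε * η x) T hT).1 _ 0 h0).2.1
  · unfold mKT
    calc ∫ η, inf1 R J (fun x => ε * η x) T (rect p K w) 0 ∂gam ≤ ∫ _η, (1 : ℝ) ∂gam := by
          refine integral_mono (inf1_int hINF hCNT hJ hT ε h0) (integrable_const _) ?_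
          intro η
          exact ((hINF R J hJ (fun x => ε * η x) T hT).1 _ 0 h0).2.2
      _ = 1 := by simp
  · intro w' hw'
    exact key _ (hmono w' hw')
  · intro L hL
    unfold mag infl
    simp only [hT.ne', if_false]
    exact key _ (hbox L hL)

end Pool.Agent.H1.RFT
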