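import Pool.Agent.H98.RFT.Targets3
import Pool.Agent.H98.RFT.Basic
import Pool.Agent.H13.RFZ.A2
import Pool.Agent.H1.RFT.MON1

/-!
# Row A2 of the board rft (helper98, MP_057a7e_pr)

Scaling up, probability: union bound over pairs of cells and domination in disjoint balls.
-/

set_option autoImplicit false

open MeasureTheory ProbabilityTheory

namespace Pool.Agent.H1.RFT

open Pool.Agent.H98.RFC Pool.Agent.H98.RFZ Pool.Agent.H98.RFT
open Pool.Agent.H13.RFZ (disj_eb G mem_G card_G)

theorem mem_eb {z x : Site} {r : ℕ} : x ∈ eb z r ↔ nsq (x - z) ≤ (r : ℤ) ^ 2 := by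
  unfold eb
  rw [Finset.mem_filter]
  refine ⟨fun h => h.2, fun h => ⟨?_, h⟩⟩
  unfold nsq at h
  unfold bx
  rw [Finset.mem_product, Finset.mem_Icc, Finset.mem_Icc]
  simp only [Prod.fst_sub, Prod.snd_sub] at h
  have hr : (0 : ℤ) ≤ r := Int.natCast_nonneg r
  have h1 : |x.1 - z.1| ≤ r := abs_le_of_sq_le_sq (by nlinarith [sq_nonneg (x.2 - z.2)]) hr
  have h2 : |x.2 - z.2| ≤ r := abs_le_of_sq_le_sq (by nlinarith [sq_nonneg (x.1 - z.1)]) hr
  rw [abs_le] at h1 h2
  constructor <;> constructor <;> linarith [h1.1, h1.2, h2.1, h2.2]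

/-- triangle inequality for balls -/
theorem eb_sub {z : Site} {r s t : ℕ} (hz : z ∈ eb 0 r) (h : r + s ≤ t) : eb z s ⊆ eb 0 t := by
  intro x hx
  rw [mem_eb] at hx hz ⊢
  unfold nsq at hx hz ⊢
  simp only [Prod.fst_sub, Prod.snd_sub, Prod.fst_zero, Prod.snd_zero, sub_zero] at hx hz ⊢
  have h1 : ((r : ℤ) + s) ≤ t := by exact_mod_cast h
  have hr : (0 : ℤ) ≤ r := Int.natCast_nonneg r
  have hs : (0 : ℤ) ≤ s := Int.natCast_nonneg s
  have h3 : ((r : ℤ) + s) ^ 2 ≤ (t : ℤ) ^ 2 := pow_le_pow_left₀ (by linarith) h1 2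
  refine le_trans ?_ h3
  set a := x.1 - z.1
  set b := x.2 - z.2
  have hx1 : x.1 = z.1 + a := by simp [a]
  have hx2 : x.2 = z.2 + b := by simp [b]
  rw [hx1, hx2]
  -- Cauchy-Schwarz
  have hcs : (z.1 * a + z.2 * b) ^ 2 ≤ ((r : ℤ) * s) ^ 2 := by
    have e1 : (z.1 * a + z.2 * b) ^ 2 ≤ (z.1 ^ 2 + z.2 ^ 2) * (a ^ 2 + b ^ 2) := by
      nlinarith [sq_nonneg (z.1 * b - z.2 * a)]
    have e2 : (z.1 ^ 2 + z.2 ^ 2) * (a ^ 2 + b ^ 2) ≤ (r : ℤ) ^ 2 * (s : ℤ) ^ 2 :=
      mul_le_mul hz hx (by positivity) (by positivity)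
    calc _ ≤ _ := e1
      _ ≤ _ := e2
      _ = _ := by ring
  have h4 : z.1 * a + z.2 * b ≤ r * s := by
    have := abs_le_of_sq_le_sq hcs (by positivity)
    exact (abs_le.mp this).2
  nlinarith

theorem QP_meas (hCNT : D_CNT) (R : ℕ) (J : Site → ℝ) {T : ℝ} (hT : 0 < T) (ε : ℝ)
    (W : Finset Site) (A : Set Site → Finset (Site × Site) → Prop) :
    Measurable (fun η : Site → ℝ => QP R J (fun x => ε * η x) T W A) :=
  (((hCNT R J T hT W).2.1 A).comp (scale_cont ε)).measurable

theorem QP_int (hCNT : D_CNT) {R : ℕ} {J : Site → ℝ} (hJ : IsCoupling R J) {T : ℝ} (hT : 0 < T)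
    (ε : ℝ) (W : Finset Site) (A : Set Site → Finset (Site × Site) → Prop) :
    Integrable (fun η : Site → ℝ => QP R J (fun x => ε * η x) T W A) gam := by
  refine Integrable.of_bound (QP_meas hCNT R J hT ε W A).aestronglyMeasurable 1
    (Filter.Eventually.of_forall fun η => ?_)
  rw [Real.norm_eq_abs, abs_of_nonneg (QP_nonneg hJ _ hT _ _)]
  exact QP_le_one hJ _ hT _ _

theorem pf_A2 (hA1 : T_A1) (hBM : T_BM) (hPRD : D_PRD) (hAPR : D_APR) (hCNT : D_CNT)
    (hLOQ : D_LOQ) (hQP : D_QP) : T_A2 := by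
  classical
  intro R J hJ T ε hT N α β c hα hαβ hN v w hv hw hc hc'
  have hv0 : 0 < v := by omega
  set p := pBT R J T ε N v with hp
  have hp0 : 0 ≤ p := (hBM R J hJ T ε hT N v 0).2.2.2.2.1
  set I : Finset (Site × Site) := (G v w ×ˢ G v w).filter fun q =>
    (20 * (v : ℤ)) ^ 2 < nsq (sm v q.1 - sm v q.2) ∧ sm v q.1 ∈ eb 0 (9 * w) ∧
      sm v q.2 ∈ eb 0 (9 * w) with hI
  set f : Site → (Site → ℝ) → ℝ := fun z η =>
    QP R J (fun x => ε * η x) T (eb z (10 * v)) (BadT N v z) with hf
  -- the bound for a fixed field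
  have hfix : ∀ η : Site → ℝ,
      QP R J (fun x => ε * η x) T (eb 0 (10 * w)) (BadT (fun x => c * N x) w 0) ≤
        ∑ q ∈ I, f (sm v q.1) η * f (sm v q.2) η := by
    intro η
    set h : Site → ℝ := fun x => ε * η x
    obtain ⟨_, q2, q3⟩ := hQP R J hJ h T hT (eb 0 (10 * w))
    calc QP R J h T (eb 0 (10 * w)) (BadT (fun x => c * N x) w 0)
        ≤ QP R J h T (eb 0 (10 * w)) (fun D ω => ∃ q ∈ I,
            BadT N v (sm v q.1) D ω ∧ BadT N v (sm v q.2) D ω) := by
          refine q2 _ _ fun D ω _ hω _ hb => ?_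
          obtain ⟨y₁, y₂, h1, h2, h3, h4, h5⟩ := hA1 R D ω (by
            intro e he
            have h6 := hω he
            unfold prs at h6
            rw [Finset.mem_filter] at h6
            exact h6.2.2) N α β c hα hαβ hN v w hv hw hc hc' hb
          refine ⟨(y₁, y₂), ?_, h4, h5⟩
          rw [hI, Finset.mem_filter, Finset.mem_product]
          exact ⟨⟨mem_G hv0 h1, mem_G hv0 h2⟩, h3, h1, h2⟩
      _ ≤ ∑ q ∈ I, QP R J h T (eb 0 (10 * w)) (fun D ω =>
            BadT N v (sm v q.1) D ω ∧ BadT N v (sm v q.2) D ω) := q3 _ I _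
      _ ≤ ∑ q ∈ I, f (sm v q.1) η * f (sm v q.2) η := by
          refine Finset.sum_le_sum fun q hq => ?_
          rw [hI, Finset.mem_filter] at hq
          obtain ⟨_, hd, hz1, hz2⟩ := hq
          have hdj := disj_eb hd
          obtain ⟨a1, a2, a3, _⟩ := hBM R J hJ T ε hT N v (sm v q.1)
          obtain ⟨b1, b2, b3, _⟩ := hBM R J hJ T ε hT N v (sm v q.2)
          have hP := hPRD R J hJ h T hT (eb 0 (10 * w)) 2
            ![eb (sm v q.1) (10 * v), eb (sm v q.2) (10 * v)] (by
              intro i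
              fin_cases i
              · exact eb_sub hz1 (by omega)
              · exact eb_sub hz2 (by omega)) (by
              intro i j hij
              fin_cases i <;> fin_cases j
              · exact absurd rfl hij
              · exact hdj
              · exact hdj.symm
              · exact absurd rfl hij)
            ![BadT N v (sm v q.1), BadT N v (sm v q.2)] (by
              intro i
              fin_cases i
              · exact a1
              · exact b1) (by
              intro i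
              fin_cases i
              · exact a2
              · exact b2) (by
              intro i
              fin_cases i
              · exact a3
              · exact b3)
          rw [Fin.prod_univ_two] at hP
          refine le_trans (le_of_eq ?_) hP
          congr 1
          funext D ω
          simp [Fin.forall_fin_two]
  have hfint : ∀ q : Site × Site, Integrable (fun η => f (sm v q.1) η * f (sm v q.2) η) gam := by
    intro q
    refine Integrable.of_bound ((QP_meas hCNT R J hT ε _ _).mul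
      (QP_meas hCNT R J hT ε _ _)).aestronglyMeasurable 1
      (Filter.Eventually.of_forall fun η => ?_)
    rw [Real.norm_eq_abs, abs_of_nonneg (mul_nonneg (QP_nonneg hJ _ hT _ _)
      (QP_nonneg hJ _ hT _ _))]
    exact mul_le_one₀ (QP_le_one hJ _ hT _ _) (QP_nonneg hJ _ hT _ _) (QP_le_one hJ _ hT _ _)
  -- the integral of the products
  have hprod : ∀ q ∈ I, ∫ η, f (sm v q.1) η * f (sm v q.2) η ∂gam = p ^ 2 := by
    intro q hq
    rw [hI, Finset.mem_filter] at hq
    obtain ⟨_, hd, _, _⟩ := hq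
    have hdj := disj_eb hd
    have hP := hAPR 2 ![eb (sm v q.1) (10 * v), eb (sm v q.2) (10 * v)]
      ![f (sm v q.1), f (sm v q.2)] (by
        intro i j hij
        fin_cases i <;> fin_cases j
        · exact absurd rfl hij
        · exact hdj
        · exact hdj.symm
        · exact absurd rfl hij) (by
        intro i
        fin_cases i
        · exact QP_meas hCNT R J hT ε _ _
        · exact QP_meas hCNT R J hT ε _ _) (by
        intro i η
        fin_cases i
        · show |f (sm v q.1) η| ≤ 1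
          rw [abs_of_nonneg (QP_nonneg hJ _ hT _ _)]
          exact QP_le_one hJ _ hT _ _
        · show |f (sm v q.2) η| ≤ 1
          rw [abs_of_nonneg (QP_nonneg hJ _ hT _ _)]
          exact QP_le_one hJ _ hT _ _) (by
        intro i η η' hη
        fin_cases i
        · exact (hLOQ R J _ _ T _ fun z hz => by rw [hη z hz]).2.1 _
        · exact (hLOQ R J _ _ T _ fun z hz => by rw [hη z hz]).2.1 _)
    have e1 : (fun η : Site → ℝ => ∏ i : Fin 2, (![f (sm v q.1), f (sm v q.2)] : Fin 2 → _) i η) =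
        fun η => f (sm v q.1) η * f (sm v q.2) η := by
      funext η
      rw [Fin.prod_univ_two]
      rfl
    rw [e1, Fin.prod_univ_two] at hP
    rw [hP, pow_two]
    have e2 : ∀ z : Site, ∫ η, f z η ∂gam = p := fun z => (hBM R J hJ T ε hT N v z).2.2.2.1
    show (∫ η, f (sm v q.1) η ∂gam) * (∫ η, f (sm v q.2) η ∂gam) = p * p
    rw [e2, e2]
  have hcard : (I.card : ℝ) ≤ (20 * (w : ℝ) / (v : ℝ)) ^ 4 := by
    have h1 : (I.card : ℝ) ≤ ((G v w).card : ℝ) * ((G v w).card : ℝ) := by
      have h2 := Finset.card_filter_le (G v w ×ˢ G v w) fun q =>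
        (20 * (v : ℤ)) ^ 2 < nsq (sm v q.1 - sm v q.2) ∧ sm v q.1 ∈ eb 0 (9 * w) ∧
          sm v q.2 ∈ eb 0 (9 * w)
      rw [Finset.card_product] at h2
      exact_mod_cast h2
    have h3 := card_G hv0 hw
    calc (I.card : ℝ) ≤ _ := h1
      _ ≤ (20 * (w : ℝ) / (v : ℝ)) ^ 2 * (20 * (w : ℝ) / (v : ℝ)) ^ 2 :=
          mul_le_mul h3 h3 (by positivity) (by positivity)
      _ = _ := by ring
  unfold pBT PA
  calc ∫ η, QP R J (fun x => ε * η x) T (eb 0 (10 * w)) (BadT (fun x => c * N x) w 0) ∂gam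
      ≤ ∫ η, ∑ q ∈ I, f (sm v q.1) η * f (sm v q.2) η ∂gam :=
        integral_mono (QP_int hCNT hJ hT ε _ _) (integrable_finsetSum _ fun q _ => hfint q) hfix
    _ = ∑ q ∈ I, p ^ 2 := by
        rw [integral_finsetSum _ fun q _ => hfint q]
        exact Finset.sum_congr rfl hprod
    _ = I.card * p ^ 2 := by rw [Finset.sum_const, nsmul_eq_mul]
    _ ≤ (20 * (w : ℝ) / (v : ℝ)) ^ 4 * p ^ 2 :=
        mul_le_mul_of_nonneg_right hcard (by positivity)

end Pool.Agent.H1.RFT
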