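import Pool.Agent.H98.RFT.Targets4
import Pool.Agent.H98.RFT.Basic
import Pool.Agent.H98.RFZ.Inv
import Pool.Agent.H23.RFT.SHD

/-!
Row VONE of the board rft_modules (helper98, MP_057a7e_pr): a crossed tube gives many sites joined
to the outside.
-/

set_option autoImplicit false

noncomputable section

open MeasureTheory ProbabilityTheory

namespace Pool.Agent.H1.RFT

open Pool.Agent.H98.RFC Pool.Agent.H98.RFZ Pool.Agent.H98.RFT Pool.Agent.H65.RFZ.QUPG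
  Pool.Agent.H65.RFZ.QLAY Pool.Agent.H65.RFZ.QSHD

/-- The start of the tube. -/
def yy (u : ℕ) (v : Site) : Site := (-((u : ℤ) * v.1 / 2), -((u : ℤ) * v.2 / 2))

theorem yy_spec (u : ℕ) (v : Site) : ∃ d1 d2 : ℤ, 0 ≤ d1 ∧ d1 ≤ 1 ∧ 0 ≤ d2 ∧ d2 ≤ 1 ∧
    2 * (yy u v).1 = -((u : ℤ) * v.1) + d1 ∧ 2 * (yy u v).2 = -((u : ℤ) * v.2) + d2 := by
  have h1 : (yy u v).1 = -((u : ℤ) * v.1 / 2) := rfl
  have h2 : (yy u v).2 = -((u : ℤ) * v.2 / 2) := rfl
  rw [h1, h2]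
  generalize (u : ℤ) * v.1 = a
  generalize (u : ℤ) * v.2 = b
  refine ⟨a % 2, b % 2, ?_, ?_, ?_, ?_, ?_, ?_⟩ <;> omega

theorem yy_abs (u : ℕ) (v : Site) : (yy u v).1 ^ 2 ≤ ((u : ℤ) * v.1) ^ 2 ∧
    (yy u v).2 ^ 2 ≤ ((u : ℤ) * v.2) ^ 2 := by
  have h1 : (yy u v).1 = -((u : ℤ) * v.1 / 2) := rfl
  have h2 : (yy u v).2 = -((u : ℤ) * v.2 / 2) := rfl
  rw [h1, h2]
  generalize (u : ℤ) * v.1 = a
  generalize (u : ℤ) * v.2 = b
  constructor
  · rw [neg_sq]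
    apply sq_le_sq.2
    rw [abs_le]
    rcases abs_cases a with ⟨h, _⟩ | ⟨h, _⟩ <;> rw [h] <;> constructor <;> omega
  · rw [neg_sq]
    apply sq_le_sq.2
    rw [abs_le]
    rcases abs_cases b with ⟨h, _⟩ | ⟨h, _⟩ <;> rw [h] <;> constructor <;> omega

theorem csr (a b c d N r : ℝ) (hN : 0 ≤ N) (hN2 : N ^ 2 = a ^ 2 + b ^ 2) (hr : 0 ≤ r)
    (h : c ^ 2 + d ^ 2 ≤ r ^ 2) : |a * c + b * d| ≤ N * r := by
  apply abs_le_of_sq_le_sq _ (by positivity)
  calc (a * c + b * d) ^ 2 ≤ (a ^ 2 + b ^ 2) * (c ^ 2 + d ^ 2) := by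
        nlinarith [sq_nonneg (a * d - b * c)]
    _ ≤ (a ^ 2 + b ^ 2) * r ^ 2 := mul_le_mul_of_nonneg_left h (by positivity)
    _ = (N * r) ^ 2 := by rw [← hN2]; ring

theorem nrm_sq (v : Site) : nrm v ^ 2 = (v.1 : ℝ) ^ 2 + (v.2 : ℝ) ^ 2 := by
  unfold nrm
  rw [Real.sq_sqrt]
  · unfold nsq; push_cast; ring
  · unfold nsq; push_cast; positivity

theorem nrm_nonneg' (v : Site) : 0 ≤ nrm v := Real.sqrt_nonneg _

theorem gdot_cast (v x : Site) : (gdot v x : ℝ) = v.1 * x.1 + v.2 * x.2 := by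
  unfold gdot; push_cast; ring

theorem fdet_cast (v x : Site) : (fdet v x : ℝ) = v.1 * x.2 - v.2 * x.1 := by
  unfold fdet; push_cast; ring

theorem nrm_low {M : ℕ} {v : Site} (hM : 2 ≤ M) (hv : InVM M v) : (M : ℝ) - 2 ≤ nrm v := by
  have h1 := hv.1
  have h2 : ((M : ℝ) - 2) ^ 2 ≤ nrm v ^ 2 := by
    rw [nrm_sq]
    have h3 : (((((M : ℤ) - 2) ^ 2 : ℤ)) : ℝ) ≤ ((nsq v : ℤ) : ℝ) := by exact_mod_cast h1
    unfold nsq at h3
    push_cast at h3
    exact h3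
  exact le_of_sq_le_sq' h2 (nrm_nonneg' v)
where
  le_of_sq_le_sq' {a b : ℝ} (h : a ^ 2 ≤ b ^ 2) (hb : 0 ≤ b) : a ≤ b := by
    have := abs_le_of_sq_le_sq h hb
    exact (abs_le.1 this).2

/-- Sites near the segment. -/
theorem seg_fdet {u : ℕ} {v x : Site} (hu : 1 ≤ u)
    (h : nearSeg (yy u v) (yy u v + sm u v) x (2 * u)) : |(fdet v x : ℝ)| ≤ 3 * u * nrm v := by
  obtain ⟨d1, d2, h1, h2, h3, h4, h5, h6⟩ := yy_spec u v
  obtain ⟨t, -, -, ht⟩ := h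
  have e1 : (((yy u v + sm u v).1 : ℤ) : ℝ) - ((yy u v).1 : ℝ) = u * v.1 := by
    rw [Prod.fst_add]; unfold sm; push_cast; ring
  have e2 : (((yy u v + sm u v).2 : ℤ) : ℝ) - ((yy u v).2 : ℝ) = u * v.2 := by
    rw [Prod.snd_add]; unfold sm; push_cast; ring
  rw [e1, e2] at ht
  have h5' : 2 * ((yy u v).1 : ℝ) = -(u * v.1) + d1 := by exact_mod_cast h5
  have h6' : 2 * ((yy u v).2 : ℝ) = -(u * v.2) + d2 := by exact_mod_cast h6
  have hd1 : (0 : ℝ) ≤ d1 ∧ (d1 : ℝ) ≤ 1 := ⟨by exact_mod_cast h1, by exact_mod_cast h2⟩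
  have hd2 : (0 : ℝ) ≤ d2 ∧ (d2 : ℝ) ≤ 1 := ⟨by exact_mod_cast h3, by exact_mod_cast h4⟩
  set a := (x.1 : ℝ) - (((yy u v).1 : ℝ) + t * (u * v.1)) with ha
  set b := (x.2 : ℝ) - (((yy u v).2 : ℝ) + t * (u * v.2)) with hb
  have k1 := csr (-(v.2 : ℝ)) v.1 a b (nrm v) (2 * u) (nrm_nonneg' v)
    (by rw [nrm_sq]; ring) (by positivity) ht
  have k2 := csr (-(v.2 : ℝ)) v.1 ((d1 : ℝ) / 2) ((d2 : ℝ) / 2) (nrm v) 1 (nrm_nonneg' v)
    (by rw [nrm_sq]; ring) (by norm_num) (by nlinarith [hd1.1, hd1.2, hd2.1, hd2.2])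
  have e3 : (fdet v x : ℝ) = (-(v.2 : ℝ) * a + v.1 * b) +
      (-(v.2 : ℝ) * ((d1 : ℝ) / 2) + v.1 * ((d2 : ℝ) / 2)) := by
    rw [fdet_cast, ha, hb]
    have e4 : ((yy u v).1 : ℝ) = (-(u * v.1) + d1) / 2 := by linarith
    have e5 : ((yy u v).2 : ℝ) = (-(u * v.2) + d2) / 2 := by linarith
    rw [e4, e5]
    ring
  rw [e3]
  refine (abs_add_le _ _).trans ?_
  have hu1 : (1 : ℝ) ≤ u := by exact_mod_cast hu
  have h7 : nrm v * 1 ≤ u * nrm v := by nlinarith [nrm_nonneg' v]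
  linarith

/-- The start of the path. -/
theorem start_gdot {u κ M : ℕ} {v x : Site} (hu : 1 ≤ u) (hM : 40 * κ + 100 ≤ M)
    (hv : InVM M v) (h : x ∈ eb (yy u v) (2 * u)) : (gdot v x : ℝ) < -(κ * u * nrm v) := by
  obtain ⟨d1, d2, h1, h2, h3, h4, h5, h6⟩ := yy_spec u v
  have h5' : 2 * ((yy u v).1 : ℝ) = -(u * v.1) + d1 := by exact_mod_cast h5
  have h6' : 2 * ((yy u v).2 : ℝ) = -(u * v.2) + d2 := by exact_mod_cast h6
  have hd1 : (0 : ℝ) ≤ d1 ∧ (d1 : ℝ) ≤ 1 := ⟨by exact_mod_cast h1, by exact_mod_cast h2⟩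
  have hd2 : (0 : ℝ) ≤ d2 ∧ (d2 : ℝ) ≤ 1 := ⟨by exact_mod_cast h3, by exact_mod_cast h4⟩
  rw [mem_eb] at h
  have h7 : ((x.1 : ℝ) - (yy u v).1) ^ 2 + ((x.2 : ℝ) - (yy u v).2) ^ 2 ≤ (2 * (u : ℝ)) ^ 2 := by
    have h8 : ((nsq (x - yy u v) : ℤ) : ℝ) ≤ ((((2 * u : ℕ) : ℤ) ^ 2 : ℤ) : ℝ) := by
      exact_mod_cast h
    unfold nsq at h8
    rw [Prod.fst_sub, Prod.snd_sub] at h8
    push_cast at h8
    exact h8
  have k1 := csr (v.1 : ℝ) v.2 ((x.1 : ℝ) - (yy u v).1) ((x.2 : ℝ) - (yy u v).2) (nrm v) (2 * u)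
    (nrm_nonneg' v) (by rw [nrm_sq]) (by positivity) h7
  have k2 := csr (v.1 : ℝ) v.2 ((d1 : ℝ) / 2) ((d2 : ℝ) / 2) (nrm v) 1 (nrm_nonneg' v)
    (by rw [nrm_sq]) (by norm_num) (by nlinarith [hd1.1, hd1.2, hd2.1, hd2.2])
  have e3 : (gdot v x : ℝ) = -(u * nrm v ^ 2) / 2 +
      ((v.1 : ℝ) * ((x.1 : ℝ) - (yy u v).1) + v.2 * ((x.2 : ℝ) - (yy u v).2)) +
      ((v.1 : ℝ) * ((d1 : ℝ) / 2) + v.2 * ((d2 : ℝ) / 2)) := by
    rw [gdot_cast, nrm_sq]
    have e4 : ((yy u v).1 : ℝ) = (-(u * v.1) + d1) / 2 := by linarith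
    have e5 : ((yy u v).2 : ℝ) = (-(u * v.2) + d2) / 2 := by linarith
    rw [e4, e5]
    ring
  have hN := nrm_low (by omega) hv
  have hM' : (40 : ℝ) * κ + 100 ≤ M := by exact_mod_cast hM
  have hu1 : (1 : ℝ) ≤ u := by exact_mod_cast hu
  have hκ : (0 : ℝ) ≤ κ := Nat.cast_nonneg κ
  have l1 := (abs_le.1 k1).2
  have l2 := (abs_le.1 k2).2
  have hN0 : (98 : ℝ) ≤ nrm v := by linarith
  have l3 : nrm v * 1 ≤ u * nrm v := by nlinarith
  have l4 : 0 < (u * nrm v) * (nrm v / 2 - 3 - κ) := by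
    apply mul_pos
    · apply mul_pos <;> linarith
    · linarith
  rw [e3]
  nlinarith

/-- The end of the path. -/
theorem end_gdot {u κ M : ℕ} {v x : Site} (hu : 1 ≤ u) (hM : 40 * κ + 100 ≤ M)
    (hv : InVM M v) (h : x ∈ eb (yy u v + sm u v) (2 * u)) :
    12 * (κ * u * nrm v) + u * nrm v ≤ (gdot v x : ℝ) := by
  obtain ⟨d1, d2, h1, h2, h3, h4, h5, h6⟩ := yy_spec u v
  have h5' : 2 * ((yy u v).1 : ℝ) = -(u * v.1) + d1 := by exact_mod_cast h5
  have h6' : 2 * ((yy u v).2 : ℝ) = -(u * v.2) + d2 := by exact_mod_cast h6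
  have hd1 : (0 : ℝ) ≤ d1 ∧ (d1 : ℝ) ≤ 1 := ⟨by exact_mod_cast h1, by exact_mod_cast h2⟩
  have hd2 : (0 : ℝ) ≤ d2 ∧ (d2 : ℝ) ≤ 1 := ⟨by exact_mod_cast h3, by exact_mod_cast h4⟩
  rw [mem_eb] at h
  have h7 : ((x.1 : ℝ) - ((yy u v).1 + u * v.1)) ^ 2 + ((x.2 : ℝ) - ((yy u v).2 + u * v.2)) ^ 2 ≤
      (2 * (u : ℝ)) ^ 2 := by
    have h8 : ((nsq (x - (yy u v + sm u v)) : ℤ) : ℝ) ≤ ((((2 * u : ℕ) : ℤ) ^ 2 : ℤ) : ℝ) := by
      exact_mod_cast h
    unfold nsq at h8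
    rw [Prod.fst_sub, Prod.snd_sub, Prod.fst_add, Prod.snd_add] at h8
    unfold sm at h8
    push_cast at h8
    exact h8
  have k1 := csr (v.1 : ℝ) v.2 ((x.1 : ℝ) - ((yy u v).1 + u * v.1))
    ((x.2 : ℝ) - ((yy u v).2 + u * v.2)) (nrm v) (2 * u)
    (nrm_nonneg' v) (by rw [nrm_sq]) (by positivity) h7
  have k2 := csr (v.1 : ℝ) v.2 ((d1 : ℝ) / 2) ((d2 : ℝ) / 2) (nrm v) 1 (nrm_nonneg' v)
    (by rw [nrm_sq]) (by norm_num) (by nlinarith [hd1.1, hd1.2, hd2.1, hd2.2])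
  have e3 : (gdot v x : ℝ) = (u * nrm v ^ 2) / 2 +
      ((v.1 : ℝ) * ((x.1 : ℝ) - ((yy u v).1 + u * v.1)) +
        v.2 * ((x.2 : ℝ) - ((yy u v).2 + u * v.2))) +
      ((v.1 : ℝ) * ((d1 : ℝ) / 2) + v.2 * ((d2 : ℝ) / 2)) := by
    rw [gdot_cast, nrm_sq]
    have e4 : ((yy u v).1 : ℝ) = (-(u * v.1) + d1) / 2 := by linarith
    have e5 : ((yy u v).2 : ℝ) = (-(u * v.2) + d2) / 2 := by linarith
    rw [e4, e5]
    ring
  have hN := nrm_low (by omega) hv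
  have hM' : (40 : ℝ) * κ + 100 ≤ M := by exact_mod_cast hM
  have hu1 : (1 : ℝ) ≤ u := by exact_mod_cast hu
  have hκ : (0 : ℝ) ≤ κ := Nat.cast_nonneg κ
  have l1 := (abs_le.1 k1).1
  have l2 := (abs_le.1 k2).1
  have hN0 : (98 : ℝ) ≤ nrm v := by linarith
  have l3 : nrm v * 1 ≤ u * nrm v := by nlinarith
  have l4 : 0 ≤ (u * nrm v) * (nrm v / 2 - 4 - 12 * κ) := by
    apply mul_nonneg
    · apply mul_nonneg <;> linarith
    · linarith
  rw [e3]
  nlinarith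

/-- The end of the path is outside the box. -/
theorem end_out {u κ M : ℕ} {v x : Site} (hu : 1 ≤ u) (hM : 40 * κ + 100 ≤ M)
    (hv : InVM M v) (h : x ∈ eb (yy u v + sm u v) (2 * u)) : x ∉ box (8 * (κ * u)) := by
  intro hx
  have h1 := end_gdot hu hM hv h
  rw [Pool.Agent.H11.RFC.mem_box] at hx
  obtain ⟨⟨a1, a2⟩, a3, a4⟩ := hx
  have b1 : (x.1 : ℝ) ^ 2 ≤ (8 * (κ * u)) ^ 2 := by
    apply sq_le_sq'
    · exact_mod_cast a1
    · exact_mod_cast a2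
  have b2 : (x.2 : ℝ) ^ 2 ≤ (8 * (κ * u)) ^ 2 := by
    apply sq_le_sq'
    · exact_mod_cast a3
    · exact_mod_cast a4
  have k1 := csr (v.1 : ℝ) v.2 (x.1 : ℝ) x.2 (nrm v) (12 * (κ * u)) (nrm_nonneg' v)
    (by rw [nrm_sq]) (by positivity) (by nlinarith)
  rw [← gdot_cast] at k1
  have l1 := (abs_le.1 k1).2
  have hN := nrm_low (by omega) hv
  have hM' : (40 : ℝ) * κ + 100 ≤ M := by exact_mod_cast hM
  have hu1 : (1 : ℝ) ≤ u := by exact_mod_cast hu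
  have hκ : (0 : ℝ) ≤ κ := Nat.cast_nonneg κ
  have l3 : 0 < u * nrm v := mul_pos (by linarith) (by linarith)
  nlinarith

/-- The middle of the tube is in the small box. -/
theorem mid_box {u κ M : ℕ} {v x : Site} (hκ : 4 ≤ κ) (hM : 40 * κ + 100 ≤ M)
    (hv : InVM M v) (h1 : |(gdot v x : ℝ)| ≤ κ * u * nrm v)
    (h2 : |(fdet v x : ℝ)| ≤ 3 * u * nrm v) : x ∈ box (2 * (κ * u)) := by
  have hN := nrm_low (by omega) hv
  have hM' : (40 : ℝ) * κ + 100 ≤ M := by exact_mod_cast hM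
  have hκ' : (4 : ℝ) ≤ κ := by exact_mod_cast hκ
  have hN0 : 0 < nrm v := by linarith
  have h3 : (gdot v x : ℝ) ^ 2 + (fdet v x : ℝ) ^ 2 =
      nrm v ^ 2 * ((x.1 : ℝ) ^ 2 + (x.2 : ℝ) ^ 2) := by
    rw [gdot_cast, fdet_cast, nrm_sq]; ring
  have h4 : (gdot v x : ℝ) ^ 2 ≤ (κ * u * nrm v) ^ 2 := by
    rw [← sq_abs]; exact pow_le_pow_left₀ (abs_nonneg _) h1 2
  have h5 : (fdet v x : ℝ) ^ 2 ≤ (3 * u * nrm v) ^ 2 := by
    rw [← sq_abs]; exact pow_le_pow_left₀ (abs_nonneg _) h2 2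
  have h6 : nrm v ^ 2 * ((x.1 : ℝ) ^ 2 + (x.2 : ℝ) ^ 2) ≤ nrm v ^ 2 * (2 * (κ * u)) ^ 2 := by
    rw [← h3]
    have h7 : (3 * u * nrm v) ^ 2 ≤ (κ * u * nrm v) ^ 2 := by
      apply pow_le_pow_left₀ (by positivity)
      have : 0 ≤ (u : ℝ) * nrm v := by positivity
      nlinarith
    nlinarith [sq_nonneg (κ * u * nrm v)]
  have h7 : (x.1 : ℝ) ^ 2 + (x.2 : ℝ) ^ 2 ≤ (2 * (κ * u)) ^ 2 :=
    le_of_mul_le_mul_left h6 (by positivity)
  have h8 : |(x.1 : ℝ)| ≤ 2 * (κ * u) :=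
    abs_le_of_sq_le_sq (by nlinarith [sq_nonneg (x.2 : ℝ)]) (by positivity)
  have h9 : |(x.2 : ℝ)| ≤ 2 * (κ * u) :=
    abs_le_of_sq_le_sq (by nlinarith [sq_nonneg (x.1 : ℝ)]) (by positivity)
  rw [Pool.Agent.H11.RFC.mem_box]
  have a1 := abs_le.1 h8
  have a2 := abs_le.1 h9
  refine ⟨⟨?_, ?_⟩, ?_, ?_⟩
  · exact_mod_cast a1.1
  · exact_mod_cast a1.2
  · exact_mod_cast a2.1
  · exact_mod_cast a2.2

/-- The tube is crossed by a path in `D`, whose steps at `Λ` are open. -/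
def Xw (R : ℕ) (Λ : Finset Site) (u : ℕ) (v y : Site) (D : Set Site)
    (ω : Finset (Site × Site)) : Prop :=
  ∃ (k : ℕ) (x : ℕ → Site), (∀ j, j ≤ k → x j ∈ D) ∧
    (∀ j, j < k → x (j + 1) - x j ∈ box R ∧ (x j ∈ Λ ∨ x (j + 1) ∈ Λ →
      opn ω (x j) (x (j + 1)))) ∧
    (∀ i, i ≤ k → nearSeg y (y + sm u v) (x i) (2 * u)) ∧
    x 0 ∈ eb y (2 * u) ∧ x k ∈ eb (y + sm u v) (2 * u)

/-- A site of `Λ` on a path that leaves `Λ` is connected to the outside. -/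
theorem path_conn {R : ℕ} {Λ : Finset Site} {D : Set Site} {ω : Finset (Site × Site)} (k : ℕ)
    (x : ℕ → Site) (hD : ∀ j, j ≤ k → x j ∈ D)
    (ho : ∀ j, j < k → x (j + 1) - x j ∈ box R ∧ (x j ∈ Λ ∨ x (j + 1) ∈ Λ →
      opn ω (x j) (x (j + 1)))) (hk : x k ∉ Λ) (j : ℕ) (hj : j ≤ k)
    (hjΛ : x j ∈ Λ) : conn D Λ ω (x j) := by
  have key : ∀ m j, j + m = k → x j ∈ Λ → conn D Λ ω (x j) := by
    intro m
    induction m with
    | zero =>
      intro j hj hjΛ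
      have h1 : j = k := by omega
      rw [h1] at hjΛ
      exact absurd hjΛ hk
    | succ m ih =>
      intro j hj hjΛ
      have h1 : j < k := by omega
      have h2 := (ho j h1).2 (Or.inl hjΛ)
      have hstep : x j ∈ Λ ∧ x j ∈ D ∧ x (j + 1) ∈ D ∧ opn ω (x j) (x (j + 1)) :=
        ⟨hjΛ, hD j (by omega), hD (j + 1) h1, h2⟩
      by_cases h3 : x (j + 1) ∈ Λ
      · obtain ⟨w, hw, hp⟩ := ih (j + 1) (by omega) h3
        exact ⟨w, hw, Relation.ReflTransGen.head hstep hp⟩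
      · exact ⟨x (j + 1), h3, Relation.ReflTransGen.single hstep⟩
  exact key (k - j) j (by omega) hjΛ

theorem clamp_step (A a b : ℤ) (L : ℤ) (h : |b - a| ≤ L) :
    |max (-A) (min A b) - max (-A) (min A a)| ≤ L := by
  have h1 := abs_le.1 h
  rw [abs_le]
  rcases le_total A b with hb | hb <;> rcases le_total A a with ha | ha <;>
  rcases le_total (-A) b with hb' | hb' <;> rcases le_total (-A) a with ha' | ha' <;>
  simp only [max_def, min_def] <;> split_ifs <;> constructor <;> omega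

open Classical in
/-- A crossing gives many sites joined to the outside. -/
theorem card_conn {R κ M u : ℕ} {v : Site} (hκ : 4 ≤ κ) (hu : 10 * R + 10 ≤ u)
    (hM : 40 * κ + 100 ≤ M) (hv : InVM M v) {D : Set Site} {ω : Finset (Site × Site)}
    (h : Xw R (box (8 * (κ * u))) u v (yy u v) D ω) :
    (κ * u : ℝ) ≤ 2 * R * ((((box (2 * (κ * u))).filter
      (fun x => |(fdet v x : ℝ)| ≤ 3 * u * nrm v)).filter
      (fun x => conn D (box (8 * (κ * u))) ω x)).card : ℝ) := by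
  obtain ⟨k, x, hx1, hx2, hx3, hx4, hx5⟩ := h
  set Λ := box (8 * (κ * u)) with hΛ
  set F := ((box (2 * (κ * u))).filter (fun x => |(fdet v x : ℝ)| ≤ 3 * u * nrm v)).filter
      (fun x => conn D Λ ω x) with hF
  have hu1 : 1 ≤ u := by omega
  have hN := nrm_low (by omega) hv
  have hM' : (40 : ℝ) * κ + 100 ≤ M := by exact_mod_cast hM
  have hκ' : (4 : ℝ) ≤ κ := by exact_mod_cast hκ
  have hu' : (10 : ℝ) * R + 10 ≤ u := by exact_mod_cast hu
  have hR0 : (0 : ℝ) ≤ R := Nat.cast_nonneg R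
  have hN0 : (98 : ℝ) ≤ nrm v := by linarith
  have hout := end_out hu1 hM hv hx5
  have hst := start_gdot hu1 hM hv hx4
  have hen := end_gdot hu1 hM hv hx5
  -- the clamped function
  set A : ℤ := ⌊(κ * u * nrm v : ℝ)⌋ with hA
  have hA1 : (A : ℝ) ≤ κ * u * nrm v := Int.floor_le _
  have hA2 : (κ * u * nrm v : ℝ) < A + 1 := Int.lt_floor_add_one _
  have hA0 : 0 ≤ A := Int.floor_nonneg.2 (by positivity)
  set L : ℕ := v.1.natAbs + v.2.natAbs with hL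
  set g : ℕ → ℤ := fun i => max (-A) (min A (gdot v (x i))) with hg
  have hg0 : g 0 = -A := by
    have h1 : gdot v (x 0) ≤ -A := by
      have : (gdot v (x 0) : ℝ) ≤ ((-A : ℤ) : ℝ) := by
        push_cast
        linarith
      exact_mod_cast this
    simp only [hg]
    rw [min_eq_right (by omega), max_eq_left h1]
  have hgk : g k = A := by
    have h1 : A ≤ gdot v (x k) := by
      have : (A : ℝ) ≤ (gdot v (x k) : ℝ) := by
        have h2 : 0 ≤ κ * u * nrm v := by positivity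
        have h3 : 0 ≤ u * nrm v := by positivity
        linarith
      exact_mod_cast this
    simp only [hg]
    rw [min_eq_left h1, max_eq_right (by omega)]
  have hstep : ∀ i, i < k → |g (i + 1) - g i| ≤ ((R * L : ℕ) : ℤ) := by
    intro i hi
    apply clamp_step
    have h1 := (hx2 i hi).1
    rw [Pool.Agent.H11.RFC.mem_box, Prod.fst_sub, Prod.snd_sub] at h1
    obtain ⟨⟨a1, a2⟩, a3, a4⟩ := h1
    have e1 : gdot v (x (i + 1)) - gdot v (x i) =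
        v.1 * ((x (i + 1)).1 - (x i).1) + v.2 * ((x (i + 1)).2 - (x i).2) := by
      unfold gdot; ring
    rw [e1]
    refine (abs_add_le _ _).trans ?_
    rw [abs_mul, abs_mul, hL]
    push_cast
    have b1 : |(x (i + 1)).1 - (x i).1| ≤ R := abs_le.2 ⟨a1, a2⟩
    have b2 : |(x (i + 1)).2 - (x i).2| ≤ R := abs_le.2 ⟨a3, a4⟩
    have c1 := mul_le_mul_of_nonneg_left b1 (abs_nonneg v.1)
    have c2 := mul_le_mul_of_nonneg_left b2 (abs_nonneg v.2)
    nlinarith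
  have hval : ∀ i, i ≤ k → g i ∈ insert (-A) (insert A (F.image (gdot v))) := by
    intro i hi
    rw [Finset.mem_insert, Finset.mem_insert, Finset.mem_image]
    simp only [hg]
    rcases le_total A (gdot v (x i)) with h1 | h1
    · right; left
      rw [min_eq_left h1, max_eq_right (by omega)]
    · rcases le_total (gdot v (x i)) (-A) with h2 | h2
      · left
        rw [min_eq_right h1, max_eq_left h2]
      · right; right
        rw [min_eq_right h1, max_eq_right h2]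
        refine ⟨x i, ?_, rfl⟩
        have h3 := seg_fdet hu1 (hx3 i hi)
        have h4 : |(gdot v (x i) : ℝ)| ≤ κ * u * nrm v := by
          rw [abs_le]
          have h5 : (gdot v (x i) : ℝ) ≤ A := by exact_mod_cast h1
          have h6 : (-(A : ℝ)) ≤ gdot v (x i) := by exact_mod_cast h2
          constructor <;> linarith
        have h5 := mid_box hκ hM hv h4 h3
        have h6 : x i ∈ Λ := by
          rw [hΛ]
          rw [Pool.Agent.H11.RFC.mem_box] at h5 ⊢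
          have h7 : ((2 * (κ * u) : ℕ) : ℤ) ≤ ((8 * (κ * u) : ℕ) : ℤ) := by
            push_cast
            nlinarith [mul_nonneg (Int.natCast_nonneg κ) (Int.natCast_nonneg u)]
          refine ⟨⟨?_, ?_⟩, ?_, ?_⟩ <;> linarith [h5.1.1, h5.1.2, h5.2.1, h5.2.2]
        rw [hF, Finset.mem_filter, Finset.mem_filter]
        exact ⟨⟨h5, h3⟩, path_conn k x hx1 hx2 hout i hi h6⟩
  have hmany := Pool.Agent.H98.RFZ.Inv.many (R * L) k g hstep (2 * A.toNat) (by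
    rw [hgk, hg0]
    rw [abs_of_nonneg (by omega)]
    push_cast
    rw [Int.toNat_of_nonneg hA0]
    linarith) _ hval
  have hcard : (insert (-A) (insert A (F.image (gdot v)))).card ≤ F.card + 2 := by
    refine (Finset.card_insert_le _ _).trans ?_
    have h1 := Finset.card_insert_le A (F.image (gdot v))
    have h2 : (F.image (gdot v)).card ≤ F.card := Finset.card_image_le
    omega
  have hm2 : 2 * A.toNat ≤ R * L * (F.card + 2) := hmany.trans (Nat.mul_le_mul_left _ hcard)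
  have hm3 : 2 * (A : ℝ) ≤ R * L * (F.card + 2) := by
    have h1 : ((2 * A.toNat : ℕ) : ℝ) ≤ ((R * L * (F.card + 2) : ℕ) : ℝ) := by exact_mod_cast hm2
    push_cast at h1
    have h2 : ((A.toNat : ℕ) : ℝ) = (A : ℝ) := by
      have h3 := Int.toNat_of_nonneg hA0
      have h4 : (((A.toNat : ℕ) : ℤ) : ℝ) = (A : ℝ) := by rw [h3]
      rw [← h4]
      push_cast
      rfl
    rw [h2] at h1
    exact h1
  have hLN : (L : ℝ) ≤ 3 / 2 * nrm v := by
    have h1 : (L : ℝ) = |(v.1 : ℝ)| + |(v.2 : ℝ)| := by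
      rw [hL]
      push_cast
      rw [Nat.cast_natAbs, Nat.cast_natAbs]
      push_cast
      rfl
    rw [h1]
    refine le_of_abs_le (abs_le_of_sq_le_sq ?_ (by positivity))
    rw [mul_pow, nrm_sq]
    nlinarith [sq_nonneg (|(v.1 : ℝ)| - |(v.2 : ℝ)|), sq_abs (v.1 : ℝ), sq_abs (v.2 : ℝ),
      sq_nonneg (v.1 : ℝ), sq_nonneg (v.2 : ℝ)]
  -- the end
  have hc0 : (0 : ℝ) ≤ F.card := Nat.cast_nonneg _
  have h1 : R * L * ((F.card : ℝ) + 2) ≤ R * (3 / 2 * nrm v) * (F.card + 2) := by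
    refine mul_le_mul_of_nonneg_right (mul_le_mul_of_nonneg_left hLN hR0) (by positivity)
  have h2 : 2 * (κ * u * nrm v) ≤ (3 / 2 * R * (F.card + 2) + 1) * nrm v := by
    nlinarith
  have h3 : 2 * (κ * u : ℝ) ≤ 3 / 2 * R * (F.card + 2) + 1 := by
    have h4 : (2 * (κ * u)) * nrm v ≤ (3 / 2 * R * (F.card + 2) + 1) * nrm v := by linarith
    exact le_of_mul_le_mul_right h4 (by linarith)
  have h4 : 4 * (10 * (R : ℝ) + 10) ≤ κ * u := by
    have : (4 : ℝ) * u ≤ κ * u := mul_le_mul_of_nonneg_right hκ' (Nat.cast_nonneg u)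
    linarith
  nlinarith [mul_nonneg hR0 hc0]

theorem pf_VONE (hSUB : D_SUB) (hCM : T_CM) (hCNT : D_CNT) (hINF : D_INF) (hQP : D_QP) :
    V_ONE := by
  classical
  intro R J hJ T ε hT κ M K' u v hκ hu hM hK' hv hp
  have := gam_prob
  have hu1 : 1 ≤ u := by omega
  set Λ : Finset Site := box (8 * (κ * u)) with hΛ
  set W : Finset Site := tube (yy u v) (yy u v + sm u v) (K' * u) with hW
  set F : Finset Site := (box (2 * (κ * u))).filter
    (fun x => |(fdet v x : ℝ)| ≤ 3 * u * nrm v) with hF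
  have hFΛ : ∀ x ∈ F, x ∈ Λ := by
    intro x hx
    have h5 := (Finset.mem_filter.1 hx).1
    rw [hΛ]
    rw [Pool.Agent.H11.RFC.mem_box] at h5 ⊢
    have h7 : ((2 * (κ * u) : ℕ) : ℤ) ≤ ((8 * (κ * u) : ℕ) : ℤ) := by
      push_cast
      nlinarith [mul_nonneg (Int.natCast_nonneg κ) (Int.natCast_nonneg u)]
    refine ⟨⟨?_, ?_⟩, ?_, ?_⟩ <;> linarith [h5.1.1, h5.1.2, h5.2.1, h5.2.2]
  have hsub : Λ ⊆ W := by
    intro x hx
    refine mem_tube ?_
    rw [hΛ, Pool.Agent.H11.RFC.mem_box] at hx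
    obtain ⟨⟨a1, a2⟩, a3, a4⟩ := hx
    push_cast at a1 a2 a3 a4
    have hκu : (0 : ℤ) ≤ κ * u := mul_nonneg (Int.natCast_nonneg κ) (Int.natCast_nonneg u)
    have h1 : nsq x ≤ (12 * ((κ : ℤ) * u)) ^ 2 := by
      unfold nsq
      have e1 : x.1 ^ 2 ≤ (8 * ((κ : ℤ) * u)) ^ 2 := sq_le_sq' (by linarith) (by linarith)
      have e2 : x.2 ^ 2 ≤ (8 * ((κ : ℤ) * u)) ^ 2 := sq_le_sq' (by linarith) (by linarith)
      nlinarith
    have h2 : nsq (-yy u v) ≤ (((M : ℤ) + 2) * u) ^ 2 := by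
      obtain ⟨b1, b2⟩ := yy_abs u v
      have b3 := hv.2
      unfold nsq at b3 ⊢
      rw [Prod.fst_neg, Prod.snd_neg, neg_sq, neg_sq]
      have b4 : (u : ℤ) ^ 2 * (v.1 ^ 2 + v.2 ^ 2) ≤ (u : ℤ) ^ 2 * ((M : ℤ) + 2) ^ 2 :=
        mul_le_mul_of_nonneg_left b3 (by positivity)
      nlinarith
    have h3 := nsq_add (x := x) (y := -yy u v) (s := 12 * ((κ : ℤ) * u))
      (t := ((M : ℤ) + 2) * u) (by positivity) (by positivity) h1 h2
    rw [← sub_eq_add_neg] at h3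
    refine h3.trans (pow_le_pow_left₀ (by positivity) ?_ 2)
    push_cast
    have hK'' : (M : ℤ) + 40 * κ + 100 ≤ K' := by exact_mod_cast hK'
    nlinarith [mul_nonneg (Int.natCast_nonneg κ) (Int.natCast_nonneg u), Int.natCast_nonneg u]
  -- pointwise
  have hpt : ∀ h : Site → ℝ, (κ * u : ℝ) * QP R J h T W (CrsT u v (yy u v)) ≤
      2 * R * ∑ x ∈ F, inf1 R J h T Λ x := by
    intro h
    have h1 : QP R J h T W (CrsT u v (yy u v)) ≤ QP R J h T W (Xw R Λ u v (yy u v)) := by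
      refine (hQP R J hJ h T hT W).2.1 _ _ ?_
      intro D ω _ hω hωJ ⟨k, x, hx1, hx2, hx3, hx4⟩
      exact ⟨k, x, hx1.1, fun j hj => ⟨Pool.Agent.H23.RFT.opn_box hω (hx1.2 j hj),
        fun _ => hx1.2 j hj⟩, hx2, hx3, hx4⟩
    have h2 : QP R J h T W (Xw R Λ u v (yy u v)) ≤ QP R J h T Λ (Xw R Λ u v (yy u v)) := by
      refine hSUB R J hJ h T hT Λ W hsub _ ?_ ?_
      · intro D D' ω hD ⟨k, x, hx1, hx2⟩
        exact ⟨k, x, fun j hj => hD (hx1 j hj), hx2⟩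
      · intro D ω ⟨k, x, hx1, hx2, hx3⟩
        refine ⟨k, x, hx1, fun j hj => ⟨(hx2 j hj).1, fun h4 => ?_⟩, hx3⟩
        exact Pool.Agent.H23.RFT.opn_inter h4 (hx2 j hj).1 ((hx2 j hj).2 h4)
    have h3 : (κ * u : ℝ) * QP R J h T Λ (Xw R Λ u v (yy u v)) ≤
        2 * R * ∑ x ∈ F, QP R J h T Λ (fun D ω => conn D Λ ω x) := by
      unfold QP Qd Qe
      rw [← Qg_mul, ← Qg_sum, ← Qg_mul]
      refine Qg_mono hJ h hT Λ _ _ _ _ ?_
      intro S S' ω _ _ _ _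
      change (κ * u : ℝ) * ind (Xw R Λ u v (yy u v) (Dq Λ S S') ω) ≤
        2 * (R : ℝ) * ∑ i ∈ F, ind (conn (Dq Λ S S') Λ ω i)
      by_cases hX : Xw R Λ u v (yy u v) (Dq Λ S S') ω
      · rw [ind_pos hX, mul_one]
        refine (card_conn hκ hu hM hv hX).trans (le_of_eq ?_)
        congr 1
        rw [Finset.card_filter, Nat.cast_sum]
        refine Finset.sum_congr rfl fun x _ => ?_
        unfold ind
        split_ifs <;> simp
      · rw [ind_neg hX, mul_zero]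
        exact mul_nonneg (by positivity) (Finset.sum_nonneg fun x _ => ind_nonneg _)
    have h4 : ∑ x ∈ F, QP R J h T Λ (fun D ω => conn D Λ ω x) = ∑ x ∈ F, inf1 R J h T Λ x :=
      Finset.sum_congr rfl fun x hx => ((hINF R J hJ h T hT).1 Λ x (hFΛ x hx)).1.symm
    rw [h4] at h3
    refine le_trans ?_ h3
    exact mul_le_mul_of_nonneg_left (h1.trans h2) (by positivity)
  -- integration
  have hsc : Continuous fun η : Site → ℝ => fun x => ε * η x :=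
    continuous_pi fun x => continuous_const.mul (continuous_apply x)
  have hiP : Integrable (fun η : Site → ℝ =>
      QP R J (fun x => ε * η x) T W (CrsT u v (yy u v))) gam := by
    have hm : Continuous fun η : Site → ℝ =>
        QP R J (fun x => ε * η x) T W (CrsT u v (yy u v)) :=
      ((hCNT R J T hT W).2.1 (CrsT u v (yy u v))).comp hsc
    refine Integrable.of_bound hm.measurable.aestronglyMeasurable 1
      (Filter.Eventually.of_forall fun η => ?_)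
    obtain ⟨h1, h2, -⟩ := (hQP R J hJ (fun x => ε * η x) T hT W).1 (CrsT u v (yy u v))
    rw [Real.norm_eq_abs, abs_of_nonneg h1]
    exact h2
  have hiI : ∀ x ∈ F, Integrable (fun η : Site → ℝ =>
      inf1 R J (fun z => ε * η z) T Λ x) gam := by
    intro x hx
    have hm : Continuous fun η : Site → ℝ => inf1 R J (fun z => ε * η z) T Λ x :=
      ((hCNT R J T hT Λ).2.2 x).comp hsc
    refine Integrable.of_bound hm.measurable.aestronglyMeasurable 1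
      (Filter.Eventually.of_forall fun η => ?_)
    obtain ⟨-, h1, h2⟩ := (hINF R J hJ (fun x => ε * η x) T hT).1 Λ x (hFΛ x hx)
    rw [Real.norm_eq_abs, abs_of_nonneg h1]
    exact h2
  have hmain : ∫ η, (κ * u : ℝ) * QP R J (fun x => ε * η x) T W (CrsT u v (yy u v)) ∂gam ≤
      ∫ η, 2 * (R : ℝ) * ∑ x ∈ F, inf1 R J (fun z => ε * η z) T Λ x ∂gam := by
    refine integral_mono (hiP.const_mul _) ((integrable_finsetSum _ hiI).const_mul _) fun η => ?_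
    exact hpt fun x => ε * η x
  rw [integral_const_mul, integral_const_mul, integral_finsetSum _ hiI] at hmain
  have hPA : ∫ η, QP R J (fun x => ε * η x) T W (CrsT u v (yy u v)) ∂gam =
      pCT R J T ε u v K' := (hCM R J hJ T ε hT u v K' (yy u v)).2.2.2.1
  rw [hPA] at hmain
  have hκu : (0 : ℝ) ≤ κ * u := by positivity
  nlinarith

end Pool.Agent.H1.RFT
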